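import Pool.Agent.J4H78.GP.Stm3

/-!
# Project GP3 (helper78, MP_d0fd9b_nt), CNT3: the number of primes with a large character sum,
explicit exponents (helper6; adapted from J4H57/GP/Cnt2)
-/

set_option autoImplicit false

open Filter Topology

namespace Pool.Agent.J4H6.GP

open Pool.Agent.J4H78.GP

/-- the choice of the exponent -/
theorem num3 {x y : ℕ} {A e K : ℝ} (hA : 1 < A) (he : 0 < e) (he1 : e < 1) (hK : 0 < K)
    (hL : 2 ≤ Real.log x) (hl : 4 * K ≤ Real.log (Real.log x))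
    (hl2 : (1 + e * A) * Real.log (1 / e) ≤ e * A * Real.log (Real.log x))
    (hy : (e * Real.log x) ^ A ≤ y) (hyx : (y : ℝ) ≤ (x : ℝ) ^ e) :
    0 < Real.log y ∧ ∃ k : ℕ, K * Real.log x ≤ k * Real.log y ∧
      k * Real.log y ≤ (K + e) * Real.log x ∧
      (k : ℝ) ^ k ≤ Real.exp ((1 / A + e) * (k * Real.log y)) := by
  set L := Real.log x with hLdef
  have hL0 : 0 < L := by linarith
  have hx0 : 0 < (x : ℝ) := by
    rcases Nat.eq_zero_or_pos x with h | h
    · rw [hLdef, h] at hL0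
      simp at hL0
    · exact_mod_cast h
  set l := Real.log L with hldef
  have hle : Real.exp l = L := Real.exp_log hL0
  have hl0 : 0 < l := by linarith
  have hA0 : 0 < A := by linarith
  have heL : 0 < e * L := by positivity
  have hy0 : (0 : ℝ) < y := lt_of_lt_of_le (Real.rpow_pos_of_pos heL A) hy
  have h1 : Real.log (e * L) = l - Real.log (1 / e) := by
    rw [Real.log_mul he.ne' hL0.ne', one_div, Real.log_inv]
    ring
  have h2 : A * (l - Real.log (1 / e)) ≤ Real.log y := by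
    calc A * (l - Real.log (1 / e)) = Real.log ((e * L) ^ A) := by
          rw [Real.log_rpow heL, h1]
      _ ≤ Real.log y := Real.log_le_log (Real.rpow_pos_of_pos heL A) hy
  have h3 : l ≤ (1 / A + e) * Real.log y := by
    have h4 : (1 / A + e) * (A * (l - Real.log (1 / e))) ≤ (1 / A + e) * Real.log y :=
      mul_le_mul_of_nonneg_left h2 (by positivity)
    have h5 : (1 / A + e) * (A * (l - Real.log (1 / e))) =
        l + (e * A * l - (1 + e * A) * Real.log (1 / e)) := by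
      field_simp
      ring
    linarith
  have hA1 : 1 / A < 1 := by
    rw [div_lt_one hA0]
    exact hA
  have hly2 : l / 2 ≤ Real.log y := by
    by_contra hcon
    push Not at hcon
    have h4 : (1 / A + e) * Real.log y ≤ (1 / A + e) * (l / 2) :=
      mul_le_mul_of_nonneg_left hcon.le (by positivity)
    have h5 : (1 / A + e) * (l / 2) < 2 * (l / 2) :=
      mul_lt_mul_of_pos_right (by linarith) (by linarith)
    linarith
  have hly : 0 < Real.log y := by linarith
  have hlyL : Real.log y ≤ e * L := by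
    have h4 := Real.log_le_log hy0 hyx
    rwa [Real.log_rpow hx0] at h4
  have hceil : (⌈K * L / Real.log y⌉₊ : ℝ) < K * L / Real.log y + 1 :=
    Nat.ceil_lt_add_one (by positivity)
  refine ⟨hly, ⌈K * L / Real.log y⌉₊, ?_, ?_, ?_⟩
  · have h4 : K * L / Real.log y ≤ ⌈K * L / Real.log y⌉₊ := Nat.le_ceil _
    rwa [div_le_iff₀ hly] at h4
  · have h4 : (⌈K * L / Real.log y⌉₊ : ℝ) * Real.log y ≤ (K * L / Real.log y + 1) * Real.log y :=
      mul_le_mul_of_nonneg_right hceil.le hly.le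
    rw [add_mul, div_mul_cancel₀ _ hly.ne', one_mul] at h4
    linarith
  · set k := ⌈K * L / Real.log y⌉₊ with hk
    have h4 : K * L / Real.log y ≤ L / 2 := by
      rw [div_le_div_iff₀ hly (by norm_num)]
      nlinarith
    have h7 : (k : ℝ) ≤ L := by linarith
    calc (k : ℝ) ^ k ≤ L ^ k := pow_le_pow_left₀ (Nat.cast_nonneg _) h7 k
      _ = Real.exp (k * l) := by rw [Real.exp_nat_mul, hle]
      _ ≤ _ := by
          apply Real.exp_le_exp.2
          calc (k : ℝ) * l ≤ k * ((1 / A + e) * Real.log y) :=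
                mul_le_mul_of_nonneg_left h3 (Nat.cast_nonneg _)
            _ = _ := by ring

/-- the bound for one `y` -/
theorem one_y3 {A η e Cb K : ℝ} (hA : 0 < A) (hη : 0 < η) (he : 0 < e) (hCb : 0 < Cb)
    (hbas : ∀ (x k : ℕ) (X B T : ℝ) (Q E : Finset ℕ),
      1 ≤ X → 0 ≤ T → (∀ q ∈ Q, q.Prime ∧ (q : ℝ) ≤ B) → B ^ k ≤ X →
      (∀ p ∈ E, p.Prime ∧ p ≤ x ∧ Big p Q T) →
        (E.card : ℝ) * T ^ (2 * k) ≤
          Cb * (X ^ (1 + e) + E.card * (x : ℝ) ^ (2 + e)) * (k.factorial * (Q.card : ℝ) ^ k))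
    {x y k : ℕ} (hx : 1 ≤ x) (hly : 0 < Real.log y) (h1 : K * Real.log x ≤ k * Real.log y)
    (h2 : k * Real.log y ≤ (K + e) * Real.log x)
    (h3 : (k : ℝ) ^ k ≤ Real.exp ((1 / A + e) * (k * Real.log y)))
    (hθ : 0 < 1 - (1 / A + 2 * η) - e) (hK : 2 + 2 * e ≤ (1 - (1 / A + 2 * η) - e) * K)
    (h4 : 2 * Cb ≤ (x : ℝ) ^ e)
    (P : Set ℕ) (E : Finset ℕ) (hE : ∀ p ∈ E, p.Prime ∧ p ≤ x ∧ Big p (PS P y) ((y : ℝ) ^ (1 - η))) :
    (E.card : ℝ) ≤ 2 * Cb * (x : ℝ) ^ ((1 / A + 2 * η + 2 * e) * (K + e)) := by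
  classical
  have hx0 : (0 : ℝ) < x := by exact_mod_cast hx
  have hxL : 0 ≤ Real.log x := Real.log_nonneg (by exact_mod_cast hx)
  have hy0 : (0 : ℝ) < y := by
    rcases Nat.eq_zero_or_pos y with h | h
    · rw [h] at hly
      simp at hly
    · exact_mod_cast h
  set L : ℝ := Real.log x with hLdef
  set Z : ℝ := k * Real.log y with hZ
  have hZ0 : 0 ≤ Z := by positivity
  have hX : (y : ℝ) ^ k = Real.exp Z := by
    rw [hZ, ← Real.exp_log hy0, ← Real.exp_nat_mul, Real.exp_log hy0]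
  have hxe : ∀ r : ℝ, (x : ℝ) ^ r = Real.exp (r * L) := by
    intro r
    rw [Real.rpow_def_of_pos hx0, mul_comm]
  have hT : ((y : ℝ) ^ (1 - η)) ^ (2 * k) = Real.exp (2 * (1 - η) * Z) := by
    rw [Real.rpow_def_of_pos hy0, ← Real.exp_nat_mul]
    congr 1
    rw [hZ]
    push_cast
    ring
  have hq : ((PS P y).card : ℝ) ≤ y := by
    have h5 : (PS P y).card ≤ y := by
      unfold PS
      refine (Finset.card_filter_le _ _).trans ?_
      simp
    exact_mod_cast h5
  have h5 : (k.factorial : ℝ) * ((PS P y).card : ℝ) ^ k ≤ Real.exp ((1 / A + e) * Z + Z) := by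
    have h6 : (k.factorial : ℝ) ≤ (k : ℝ) ^ k := by exact_mod_cast Nat.factorial_le_pow k
    calc (k.factorial : ℝ) * ((PS P y).card : ℝ) ^ k ≤
          Real.exp ((1 / A + e) * Z) * (y : ℝ) ^ k := by
          apply mul_le_mul (h6.trans h3) _ (by positivity) (Real.exp_pos _).le
          exact pow_le_pow_left₀ (Nat.cast_nonneg _) hq k
      _ = _ := by rw [hX, Real.exp_add]
  have h6 := hbas x k (Real.exp Z) y ((y : ℝ) ^ (1 - η)) (PS P y) E (Real.one_le_exp hZ0)
    (Real.rpow_nonneg hy0.le _) (by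
      intro q hq
      unfold PS at hq
      rw [Finset.mem_filter, Finset.mem_Icc] at hq
      exact ⟨hq.2.1, by exact_mod_cast hq.1.2⟩) hX.le hE
  rw [hT, ← Real.exp_mul] at h6
  set n : ℝ := (E.card : ℝ) with hn
  have hn0 : 0 ≤ n := Nat.cast_nonneg _
  rw [hxe (2 + e)] at h6
  have h7 : n * Real.exp (2 * (1 - η) * Z) ≤
      Cb * (Real.exp (Z * (1 + e)) + n * Real.exp ((2 + e) * L)) *
        Real.exp ((1 / A + e) * Z + Z) := by
    refine h6.trans (mul_le_mul_of_nonneg_left h5 (by positivity))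
  -- divide
  have h8 : n ≤ Cb * Real.exp ((1 / A + 2 * η + 2 * e) * Z) +
      Cb * n * Real.exp ((2 + e) * L - (1 - (1 / A + 2 * η) - e) * Z) := by
    have e1 : Real.exp ((1 / A + 2 * η + 2 * e) * Z) * Real.exp (2 * (1 - η) * Z) =
        Real.exp (Z * (1 + e)) * Real.exp ((1 / A + e) * Z + Z) := by
      rw [← Real.exp_add, ← Real.exp_add]
      congr 1
      ring
    have e2 : Real.exp ((2 + e) * L - (1 - (1 / A + 2 * η) - e) * Z) *
        Real.exp (2 * (1 - η) * Z) =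
        Real.exp ((2 + e) * L) * Real.exp ((1 / A + e) * Z + Z) := by
      rw [← Real.exp_add, ← Real.exp_add]
      congr 1
      ring
    have h9 : (Cb * Real.exp ((1 / A + 2 * η + 2 * e) * Z) +
        Cb * n * Real.exp ((2 + e) * L - (1 - (1 / A + 2 * η) - e) * Z)) *
          Real.exp (2 * (1 - η) * Z) =
        Cb * (Real.exp (Z * (1 + e)) + n * Real.exp ((2 + e) * L)) *
        Real.exp ((1 / A + e) * Z + Z) := by
      calc _ = Cb * (Real.exp ((1 / A + 2 * η + 2 * e) * Z) * Real.exp (2 * (1 - η) * Z)) +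
            Cb * n * (Real.exp ((2 + e) * L - (1 - (1 / A + 2 * η) - e) * Z) *
              Real.exp (2 * (1 - η) * Z)) := by ring
        _ = Cb * (Real.exp (Z * (1 + e)) * Real.exp ((1 / A + e) * Z + Z)) +
            Cb * n * (Real.exp ((2 + e) * L) * Real.exp ((1 / A + e) * Z + Z)) := by
            rw [e1, e2]
        _ = _ := by ring
    rw [← h9] at h7
    exact le_of_mul_le_mul_right h7 (Real.exp_pos _)
  have h9 : Real.exp ((2 + e) * L - (1 - (1 / A + 2 * η) - e) * Z) ≤ ((x : ℝ) ^ e)⁻¹ := by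
    rw [hxe e, ← Real.exp_neg]
    apply Real.exp_le_exp.2
    have a1 : (1 - (1 / A + 2 * η) - e) * (K * L) ≤ (1 - (1 / A + 2 * η) - e) * Z :=
      mul_le_mul_of_nonneg_left h1 hθ.le
    have a2 : (2 + 2 * e) * L ≤ ((1 - (1 / A + 2 * η) - e) * K) * L :=
      mul_le_mul_of_nonneg_right hK hxL
    linarith
  have hxe0 : 0 < (x : ℝ) ^ e := Real.rpow_pos_of_pos hx0 e
  have h10 : Cb * n * Real.exp ((2 + e) * L - (1 - (1 / A + 2 * η) - e) * Z) ≤ n / 2 := by
    calc Cb * n * Real.exp ((2 + e) * L - (1 - (1 / A + 2 * η) - e) * Z) ≤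
          Cb * n * ((x : ℝ) ^ e)⁻¹ := by
          gcongr
      _ = n * (2 * Cb / (x : ℝ) ^ e) / 2 := by ring
      _ ≤ n * 1 / 2 := by
          gcongr
          rw [div_le_one hxe0]
          exact h4
      _ = n / 2 := by ring
  have h11 : Real.exp ((1 / A + 2 * η + 2 * e) * Z) ≤
      (x : ℝ) ^ ((1 / A + 2 * η + 2 * e) * (K + e)) := by
    rw [hxe]
    apply Real.exp_le_exp.2
    have : (1 / A + 2 * η + 2 * e) * Z ≤ (1 / A + 2 * η + 2 * e) * ((K + e) * L) :=
      mul_le_mul_of_nonneg_left h2 (by positivity)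
    linarith
  have h12 : Cb * Real.exp ((1 / A + 2 * η + 2 * e) * Z) ≤
      Cb * (x : ℝ) ^ ((1 / A + 2 * η + 2 * e) * (K + e)) :=
    mul_le_mul_of_nonneg_left h11 hCb.le
  linarith

/-- **GP3-CNT3** -/
theorem t_CNT3 (hB : S_BAS3) : S_CNT3 := by
  intro A η ε hA hη hθ hε
  have hA0 : 0 < A := by linarith
  set θ : ℝ := 1 / A + 2 * η with hθdef
  have hθ0 : 0 < θ := by positivity
  -- the choice of `e`
  obtain ⟨e, he, he1, heθ, heφ⟩ : ∃ e : ℝ, 0 < e ∧ e < 1 ∧ e < 1 - θ ∧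
      e + (θ + 2 * e) * ((2 + 2 * e) / (1 - θ - e) + e) ≤ ex A η + ε := by
    have hc : ContinuousAt (fun e : ℝ => e + (θ + 2 * e) * ((2 + 2 * e) / (1 - θ - e) + e)) 0 := by
      have h0 : (1 - θ - (0 : ℝ)) ≠ 0 := by
        rw [sub_zero]
        linarith
      refine continuousAt_id.add ((continuousAt_const.add (continuousAt_const.mul continuousAt_id)).mul
        (((continuousAt_const.add (continuousAt_const.mul continuousAt_id)).div
          (continuousAt_const.sub continuousAt_id) h0).add continuousAt_id))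
    have h0 : (0 : ℝ) + (θ + 2 * 0) * ((2 + 2 * 0) / (1 - θ - 0) + 0) = ex A η := by
      unfold ex
      rw [← hθdef]
      ring
    have h1 : ∀ᶠ e : ℝ in 𝓝 0, e + (θ + 2 * e) * ((2 + 2 * e) / (1 - θ - e) + e) < ex A η + ε := by
      refine hc.eventually (gt_mem_nhds ?_)
      beta_reduce
      rw [h0]
      linarith
    have h2 : ∀ᶠ e : ℝ in 𝓝[>] 0, e + (θ + 2 * e) * ((2 + 2 * e) / (1 - θ - e) + e) < ex A η + ε :=
      h1.filter_mono nhdsWithin_le_nhds
    have h3 : ∀ᶠ e : ℝ in 𝓝[>] 0, 0 < e := self_mem_nhdsWithin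
    have h4 : ∀ᶠ e : ℝ in 𝓝[>] 0, e < 1 :=
      (gt_mem_nhds (show (0 : ℝ) < 1 by norm_num)).filter_mono nhdsWithin_le_nhds
    have h5 : ∀ᶠ e : ℝ in 𝓝[>] 0, e < 1 - θ :=
      (gt_mem_nhds (show (0 : ℝ) < 1 - θ by linarith)).filter_mono nhdsWithin_le_nhds
    obtain ⟨e, ha, hb, hc', hd⟩ := (h2.and (h3.and (h4.and h5))).exists
    exact ⟨e, hb, hc', hd, ha.le⟩
  set K : ℝ := (2 + 2 * e) / (1 - θ - e) with hKdef
  have hθe : 0 < 1 - θ - e := by linarith
  have hK0 : 0 < K := by positivity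
  have hKθ : 2 + 2 * e ≤ (1 - θ - e) * K := by
    rw [hKdef, mul_div_cancel₀ _ hθe.ne']
  obtain ⟨Cb, hCb, hbas⟩ := hB e he
  have hlog : Tendsto (fun x : ℕ => Real.log (x : ℝ)) atTop atTop :=
    Real.tendsto_log_atTop.comp tendsto_natCast_atTop_atTop
  have hloglog : Tendsto (fun x : ℕ => Real.log (Real.log (x : ℝ))) atTop atTop :=
    Real.tendsto_log_atTop.comp hlog
  have hpow : Tendsto (fun x : ℕ => (x : ℝ) ^ e) atTop atTop :=
    (tendsto_rpow_atTop he).comp tendsto_natCast_atTop_atTop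
  have ev : ∀ᶠ x : ℕ in atTop, 2 ≤ Real.log x ∧ 4 * K ≤ Real.log (Real.log x) ∧
      (1 + e * A) * Real.log (1 / e) ≤ e * A * Real.log (Real.log x) ∧ 2 * Cb ≤ (x : ℝ) ^ e := by
    refine (hlog.eventually_ge_atTop _).and ((hloglog.eventually_ge_atTop _).and
      (((hloglog.const_mul_atTop (show 0 < e * A by positivity)).eventually_ge_atTop _).and
        (hpow.eventually_ge_atTop _)))
  obtain ⟨x₁, hx₁⟩ := eventually_atTop.1 ev
  have hex0 : 0 ≤ ex A η + ε := by
    have h1 : 0 ≤ (θ + 2 * e) * (K + e) := by positivity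
    linarith
  refine ⟨e, 2 * Cb + 1 + (x₁ + 1), he, he1, by positivity, fun P x hx E hE => ?_⟩
  have hx0 : (0 : ℝ) < x := by exact_mod_cast hx
  have hx1 : (1 : ℝ) ≤ x := by exact_mod_cast hx
  have hxδ : 1 ≤ (x : ℝ) ^ (ex A η + ε) := Real.one_le_rpow hx1 hex0
  rcases lt_or_ge x x₁ with hlt | hge
  · -- small `x`
    have h1 : E.card ≤ x + 1 := by
      have : E ⊆ Finset.range (x + 1) := fun p hp => by
        rw [Finset.mem_range]
        have := (hE p hp).2.1
        omega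
      simpa using Finset.card_le_card this
    have h2 : (E.card : ℝ) ≤ x₁ + 1 := by
      have : E.card ≤ x₁ + 1 := by omega
      exact_mod_cast this
    calc (E.card : ℝ) ≤ (x₁ + 1) := h2
      _ ≤ (2 * Cb + 1 + (x₁ + 1)) * 1 := by linarith
      _ ≤ _ := by gcongr
  · obtain ⟨hL, hl, hl2, hCx⟩ := hx₁ x hge
    set L := Real.log x with hLdef
    have hL0 : 0 < L := by linarith
    classical
    set F : ℕ → Finset ℕ := fun y => E.filter (fun p => (x : ℝ) ^ e < p ∧
      (Real.log p) ^ A ≤ y ∧ (y : ℝ) ≤ (p : ℝ) ^ e ∧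
        Big p (PS P y) ((y : ℝ) ^ (1 - η))) with hF
    set Y : Finset ℕ := Finset.Icc 1 ⌊(x : ℝ) ^ e⌋₊ with hY
    have hsub : E ⊆ Finset.Icc 1 ⌊(x : ℝ) ^ e⌋₊ ∪ Y.biUnion F := by
      intro p hp
      obtain ⟨hp1, hp2, y, hy1, hy2, hy3⟩ := hE p hp
      rw [Finset.mem_union]
      by_cases h1 : (p : ℝ) ≤ (x : ℝ) ^ e
      · left
        rw [Finset.mem_Icc]
        exact ⟨hp1.one_lt.le, Nat.le_floor h1⟩
      · right
        push Not at h1
        have hpx : (p : ℝ) ^ e ≤ (x : ℝ) ^ e :=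
          Real.rpow_le_rpow (Nat.cast_nonneg _) (by exact_mod_cast hp2) he.le
        have hlp : 0 < Real.log p := Real.log_pos (by exact_mod_cast hp1.one_lt)
        have hy0 : (0 : ℝ) < y := lt_of_lt_of_le (Real.rpow_pos_of_pos hlp A) hy1
        rw [Finset.mem_biUnion]
        refine ⟨y, ?_, ?_⟩
        · rw [hY, Finset.mem_Icc]
          exact ⟨by exact_mod_cast hy0, Nat.le_floor (hy2.trans hpx)⟩
        · rw [hF, Finset.mem_filter]
          exact ⟨hp, h1, hy1, hy2, hy3⟩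
    have hone : ∀ y ∈ Y, ((F y).card : ℝ) ≤
        2 * Cb * (x : ℝ) ^ ((θ + 2 * e) * (K + e)) := by
      intro y hy
      rcases (F y).eq_empty_or_nonempty with h0 | ⟨p, hp⟩
      · rw [h0, Finset.card_empty, Nat.cast_zero]
        positivity
      · rw [hF, Finset.mem_filter] at hp
        obtain ⟨hpE, hp1, hp2, hp3, -⟩ := hp
        have hlp : e * L ≤ Real.log p := by
          have h1 : Real.log ((x : ℝ) ^ e) ≤ Real.log p :=
            Real.log_le_log (by positivity) hp1.le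
          rwa [Real.log_rpow hx0] at h1
        have hy1 : (e * L) ^ A ≤ y :=
          (Real.rpow_le_rpow (by positivity) hlp hA0.le).trans hp2
        have hyx : (y : ℝ) ≤ (x : ℝ) ^ e :=
          hp3.trans (Real.rpow_le_rpow (Nat.cast_nonneg _)
            (by exact_mod_cast (hE p hpE).2.1) he.le)
        obtain ⟨hly, k, hk1, hk2, hk3⟩ := num3 hA he he1 hK0 hL hl hl2 hy1 hyx
        refine one_y3 hA0 hη he hCb hbas hx hly hk1 hk2 hk3 hθe hKθ hCx P (F y) ?_
        intro p' hp'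
        rw [hF, Finset.mem_filter] at hp'
        exact ⟨(hE p' hp'.1).1, (hE p' hp'.1).2.1, hp'.2.2.2.2⟩
    have hcard : (E.card : ℝ) ≤ (x : ℝ) ^ e + (x : ℝ) ^ e *
        (2 * Cb * (x : ℝ) ^ ((θ + 2 * e) * (K + e))) := by
      have h1 : E.card ≤ ⌊(x : ℝ) ^ e⌋₊ + ∑ y ∈ Y, (F y).card := by
        calc E.card ≤ (Finset.Icc 1 ⌊(x : ℝ) ^ e⌋₊ ∪ Y.biUnion F).card :=
              Finset.card_le_card hsub
          _ ≤ (Finset.Icc 1 ⌊(x : ℝ) ^ e⌋₊).card + (Y.biUnion F).card :=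
              Finset.card_union_le _ _
          _ ≤ ⌊(x : ℝ) ^ e⌋₊ + ∑ y ∈ Y, (F y).card := by
              refine add_le_add ?_ Finset.card_biUnion_le
              simp
      have h2 : (E.card : ℝ) ≤ (⌊(x : ℝ) ^ e⌋₊ : ℝ) + ∑ y ∈ Y, ((F y).card : ℝ) := by
        exact_mod_cast h1
      refine h2.trans (add_le_add (Nat.floor_le (by positivity)) ?_)
      calc ∑ y ∈ Y, ((F y).card : ℝ) ≤ ∑ y ∈ Y,
            2 * Cb * (x : ℝ) ^ ((θ + 2 * e) * (K + e)) :=
            Finset.sum_le_sum hone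
        _ = (Y.card : ℝ) * (2 * Cb * (x : ℝ) ^ ((θ + 2 * e) * (K + e))) := by
            rw [Finset.sum_const, nsmul_eq_mul]
        _ ≤ _ := by
            gcongr
            rw [hY, Nat.card_Icc, Nat.add_sub_cancel]
            exact Nat.floor_le (by positivity)
    have hmain : (x : ℝ) ^ e * (2 * Cb * (x : ℝ) ^ ((θ + 2 * e) * (K + e))) ≤
        2 * Cb * (x : ℝ) ^ (ex A η + ε) := by
      calc (x : ℝ) ^ e * (2 * Cb * (x : ℝ) ^ ((θ + 2 * e) * (K + e)))
          = 2 * Cb * (x : ℝ) ^ (e + (θ + 2 * e) * (K + e)) := by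
            rw [Real.rpow_add hx0]
            ring
        _ ≤ _ := by
            refine mul_le_mul_of_nonneg_left ?_ (by positivity)
            exact Real.rpow_le_rpow_of_exponent_le hx1 heφ
    have h2 : (x : ℝ) ^ e ≤ (x : ℝ) ^ (ex A η + ε) := by
      refine Real.rpow_le_rpow_of_exponent_le hx1 ?_
      have h1 : 0 ≤ (θ + 2 * e) * (K + e) := by positivity
      linarith
    have h3 : (0 : ℝ) ≤ (x₁ + 1) * (x : ℝ) ^ (ex A η + ε) := by positivity
    calc (E.card : ℝ) ≤ (x : ℝ) ^ (ex A η + ε) + 2 * Cb * (x : ℝ) ^ (ex A η + ε) := by linarith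
      _ ≤ (2 * Cb + 1 + (x₁ + 1)) * (x : ℝ) ^ (ex A η + ε) := by linarith

end Pool.Agent.J4H6.GP
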